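import Pool.Agent.helper7.FI2.SpecK

set_option autoImplicit false

/-!
# Project fi2 (MP_baa4d7_al), block F, row FCQ2 (model: `helper68/FI/FCQ`)
-/

namespace Pool.Agent.FI2

open Pool.Agent.helper58.DC Pool.Agent.DI Pool.Agent.GR Pool.Agent.OB Pool.Agent.DR Pool.Agent.FI

theorem FCQ2_cy {G : Type} [Group G] (c : G) (K S : Subgroup G) (h : CY2 (cjS c K) (cjS c S)) : CY2 K S := by
  intro s hs g hg hsg
  have hcj : ∀ (z : G) (L : Subgroup G), z ∈ L → c * z * c⁻¹ ∈ cjS c L := by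
    intro z L hz
    rw [mem_cjS]
    have h1 : c⁻¹ * (c * z * c⁻¹) * c = z := by group
    rw [h1]
    exact hz
  obtain ⟨r, hr, ⟨i, hi⟩, ⟨j, hj⟩⟩ := h (c * s * c⁻¹) (hcj s S hs) (c * g * c⁻¹) (hcj g S hg) (by
    have h1 : c * s * c⁻¹ * (c * g * c⁻¹) * (c * s * c⁻¹)⁻¹ * (c * g * c⁻¹)⁻¹ = c * (s * g * s⁻¹ * g⁻¹) * c⁻¹ := by
      group
    rw [h1]
    exact hcj _ K hsg)
  rw [mem_cjS] at hr hi hj
  have hpow : ∀ (k : ℤ) (z : G), c⁻¹ * (r ^ k * (c * z * c⁻¹)) * c = (c⁻¹ * r * c) ^ k * z := by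
    intro k z
    have h1 : (c⁻¹ * r * c) ^ k = c⁻¹ * r ^ k * c := by
      have h2 := conj_zpow (a := c⁻¹) (b := r) (i := k)
      rw [inv_inv] at h2
      exact h2
    rw [h1]
    group
  refine ⟨c⁻¹ * r * c, hr, ⟨i, ?_⟩, ⟨j, ?_⟩⟩
  · rw [← hpow i s]
    exact hi
  · rw [← hpow j g]
    exact hj

theorem FCQ2 (hFCP2 : FCP2_stmt) (hHTZ : HTZ_stmt) (hFEQ : FEQ_stmt) : FCQ2_stmt := by
  intro p M hS G _ _ D x θ χ hL P hPp hP N hN1 hN2 ψ hψ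
  obtain ⟨g, hg, hSB⟩ := hL.lo.con P hPp ψ hψ.1 hψ.2
  have hcz : cz (cjS g P) = cjS g (cz P) := (hFEQ G M g 1 P P P θ θ θ).2.1.1
  have hnz : nz (cjS g P) = cjS g (nz P) := (hFEQ G M g 1 P P P θ θ θ).2.1.2.1
  have hP' : cjS g P ≠ ⊥ := fun h => hP ((hFEQ G M g 1 P P P θ θ θ).2.1.2.2.2.2.1.1 h)
  have hN1' : cz (cjS g P) ≤ cjS g N := by
    rw [hcz]
    exact (hFEQ G M g 1 (cz P) N P θ θ θ).2.1.2.2.1.2 hN1
  have hN2' : cjS g N ≤ nz (cjS g P) := by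
    rw [hnz]
    exact (hFEQ G M g 1 N (nz P) P θ θ θ).2.1.2.2.1.2 hN2
  have hψ' : cjF g ψ ∈ Bl M (cz (cjS g P)) θ := by
    refine ⟨?_, hSB.symm⟩
    rw [hcz]
    exact (hFEQ G M g 1 P P (cz P) θ ψ θ).2.2.2.1.1 hψ.1
  have hst : stF (cjS g N) (cjF g ψ) = cjS g (stF N ψ) := (hFEQ G M g 1 P P N θ ψ θ).2.2.2.2.2.2.2.1
  obtain ⟨h1, h2, h3, -⟩ := hFCP2 p M hS G D x θ χ hL.lo (cjS g P) hg hP' (cjS g N) hN1' hN2' (cjF g ψ) hψ'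
  rw [hcz, hst] at h1 h2 h3
  rw [(hFEQ G M g 1 (cz P) (stF N ψ) P θ θ θ).2.2.2.2.2.2.2.2] at h2 h3
  refine ⟨FCQ2_cy g _ _ h1, h2, h3, ?_⟩
  intro a ha
  obtain ⟨n, hn1, hn2⟩ := hHTZ p M hS G D x θ χ hL.lo (cjS g P) hg (hL.good _ hg hP') (cjF g ψ) hψ' a ha
  refine ⟨n, ?_, ?_⟩
  · rw [← hn1, cjF_apply]
    congr 1
    group
  · rw [hn2, hcz, (hFEQ G M g 1 (cz P) P P θ θ θ).2.1.2.2.2.2.2]

end Pool.Agent.FI2
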